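import Mathlib

/-!
# Signed double Roman domination: definitions
-/

set_option autoImplicit false

noncomputable section

open Classical

namespace Pool.Agent.MP_eb164e_co

/-- `f : V → ℤ` is a signed double Roman dominating function of the graph `G`. -/
structure IsSDRDF {V : Type} [Fintype V] (G : SimpleGraph V) (f : V → ℤ) : Prop where
  /-- the values are `-1, 1, 2, 3` -/
  range : ∀ v, f v = -1 ∨ f v = 1 ∨ f v = 2 ∨ f v = 3
  /-- a vertex of value `-1` has a neighbour of value `3` or two distinct neighbours of value `2` -/
  neg : ∀ u, f u = -1 → (∃ v, G.Adj u v ∧ f v = 3) ∨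
    ∃ v w, v ≠ w ∧ G.Adj u v ∧ G.Adj u w ∧ f v = 2 ∧ f w = 2
  /-- a vertex of value `1` has a neighbour of value `2` or `3` -/
  one : ∀ u, f u = 1 → ∃ v, G.Adj u v ∧ (f v = 2 ∨ f v = 3)
  /-- the sum over every closed neighbourhood is at least `1` -/
  closed : ∀ u, 1 ≤ ∑ w : V, if w = u ∨ G.Adj u w then f w else 0

/-- the signed double Roman domination number: the least weight of an SDRDF -/
def gammaSdR {V : Type} [Fintype V] (G : SimpleGraph V) : ℤ :=
  sInf {w : ℤ | ∃ f : V → ℤ, IsSDRDF G f ∧ w = ∑ v, f v}

/-- `G` is cubic: every vertex has exactly three neighbours -/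
def IsCubic {V : Type} [Fintype V] (G : SimpleGraph V) : Prop :=
  ∀ v, (Finset.univ.filter fun w => G.Adj v w).card = 3

/-- the ratios `gammaSdR G / |V|` of the connected cubic graphs with at least `N` vertices -/
def ratios (N : ℕ) : Set ℝ :=
  {x | ∃ (V : Type) (_ : Fintype V) (G : SimpleGraph V), N ≤ Fintype.card V ∧ G.Connected ∧ IsCubic G ∧
    x = (gammaSdR G : ℝ) / Fintype.card V}

/-- the asymptotic density of the class of the connected cubic graphs: the limit (infimum) over `N` of
the supremum of the ratios of the connected cubic graphs with at least `N` vertices -/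
def gammaBarConn : ℝ := ⨅ N : ℕ, sSup (ratios N)

end Pool.Agent.MP_eb164e_co
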