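import Pool.Agent.Lib.MP_eb164e_co.Tables

/-!
# The graphs of the lower bound
-/

set_option autoImplicit false

noncomputable section

open Classical Finset

namespace Pool.Agent.MP_eb164e_co

set_option linter.unusedSectionVars false

variable {k : ℕ} [NeZero k]

/-- the `t`-th neighbour of a vertex -/
def nb (u : ZMod k × Fin 56) (t : Fin 3) : ZMod k × Fin 56 := (u.1 + ((sh u.2 t : ℤ) : ZMod k), tg u.2 t)

theorem nb_symm (u : ZMod k × Fin 56) (t : Fin 3) : ∃ s, nb (nb u t) s = u := by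
  obtain ⟨s, h1, h2⟩ := tg_symm u.2 t
  refine ⟨s, ?_⟩
  unfold nb
  ext
  · simp only [h2]
    push_cast
    ring
  · simp only [h1]

/-- the graph -/
def gr (k : ℕ) [NeZero k] : SimpleGraph (ZMod k × Fin 56) where
  Adj u v := ∃ t, nb u t = v
  symm := ⟨by
    rintro u v ⟨t, rfl⟩
    exact nb_symm u t⟩
  loopless := ⟨by
    rintro u ⟨t, h⟩
    exact tg_ne u.2 t (congrArg Prod.snd h)⟩

theorem nb_inj (u : ZMod k × Fin 56) : Function.Injective (nb u) := by
  intro s t h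
  exact tg_inj u.2 s t (congrArg Prod.snd h)

theorem nb_ne (u : ZMod k × Fin 56) (t : Fin 3) : nb u t ≠ u := by
  intro h
  exact tg_ne u.2 t (congrArg Prod.snd h)

theorem filter_adj (u : ZMod k × Fin 56) : (univ.filter fun w => (gr k).Adj u w) = univ.image (nb u) := by
  ext w
  simp [gr]

theorem gr_cubic : IsCubic (gr k) := by
  intro v
  rw [filter_adj, card_image_of_injective _ (nb_inj v)]
  simp

theorem sum_closed (f : ZMod k × Fin 56 → ℤ) (u : ZMod k × Fin 56) :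
    (∑ w : ZMod k × Fin 56, if w = u ∨ (gr k).Adj u w then f w else 0) =
      f u + f (nb u 0) + f (nb u 1) + f (nb u 2) := by
  rw [← sum_filter]
  have h : (univ.filter fun w => w = u ∨ (gr k).Adj u w) = insert u (univ.image (nb u)) := by
    ext w
    simp [gr]
  rw [h, sum_insert, sum_image]
  · rw [Fin.sum_univ_three]
    ring
  · intro a _ b _ hab
    exact nb_inj u hab
  · simp only [mem_image, mem_univ, true_and, not_exists]
    intro t
    exact nb_ne u t

/-- the code of a value -/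
def code (z : ℤ) : Fin 4 := if z = -1 then 0 else if z = 1 then 1 else if z = 2 then 2 else 3

theorem val_code {z : ℤ} (h : z = -1 ∨ z = 1 ∨ z = 2 ∨ z = 3) : val (code z) = z := by
  rcases h with h | h | h | h <;> subst h <;> decide

theorem adj_cases {u v : ZMod k × Fin 56} (h : (gr k).Adj u v) : v = nb u 0 ∨ v = nb u 1 ∨ v = nb u 2 := by
  obtain ⟨t, rfl⟩ := h
  fin_cases t
  · exact Or.inl rfl
  · exact Or.inr (Or.inl rfl)
  · exact Or.inr (Or.inr rfl)

theorem ok_vertex {f : ZMod k × Fin 56 → ℤ} (hf : IsSDRDF (gr k) f) (u : ZMod k × Fin 56) :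
    ok (code (f u)) (code (f (nb u 0))) (code (f (nb u 1))) (code (f (nb u 2))) = true := by
  apply ok_of
  · have h : 1 ≤ f u + f (nb u 0) + f (nb u 1) + f (nb u 2) := by
      refine le_of_le_of_eq (hf.closed u) ?_
      rw [← sum_closed]
      refine Finset.sum_congr rfl fun w _ => ?_
      by_cases hh : w = u ∨ (gr k).Adj u w
      · rw [if_pos hh, if_pos hh]
      · rw [if_neg hh, if_neg hh]
    rw [val_code (hf.range _), val_code (hf.range _), val_code (hf.range _), val_code (hf.range _)]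
    exact h
  · intro h
    rw [val_code (hf.range _)] at h
    rw [val_code (hf.range _), val_code (hf.range _), val_code (hf.range _)]
    rcases hf.neg u h with ⟨v, hv, h3⟩ | ⟨v, w, hvw, hv, hw, hv2, hw2⟩
    · left
      rcases adj_cases hv with rfl | rfl | rfl
      · exact Or.inl h3
      · exact Or.inr (Or.inl h3)
      · exact Or.inr (Or.inr h3)
    · right
      rcases adj_cases hv with rfl | rfl | rfl <;> rcases adj_cases hw with rfl | rfl | rfl <;>
        first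
        | exact absurd rfl hvw
        | exact Or.inl ⟨hv2, hw2⟩
        | exact Or.inl ⟨hw2, hv2⟩
        | exact Or.inr (Or.inl ⟨hv2, hw2⟩)
        | exact Or.inr (Or.inl ⟨hw2, hv2⟩)
        | exact Or.inr (Or.inr ⟨hv2, hw2⟩)
        | exact Or.inr (Or.inr ⟨hw2, hv2⟩)
  · intro h
    rw [val_code (hf.range _)] at h
    rw [val_code (hf.range _), val_code (hf.range _), val_code (hf.range _)]
    obtain ⟨v, hv, h3⟩ := hf.one u h
    rcases adj_cases hv with rfl | rfl | rfl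
    · exact Or.inl h3
    · exact Or.inr (Or.inl h3)
    · exact Or.inr (Or.inr h3)

/-- the neighbours of the vertices inside one period, for codes -/
theorem nb_in (i : ZMod k) (j : Fin 56) (t : Fin 3) (j' : Fin 56) (h1 : tg j t = j') (h2 : sh j t = 0) :
    nb (i, j) t = (i, j') := by
  unfold nb
  simp [h1, h2]

theorem nb_49 (i : ZMod k) : nb (i, (49 : Fin 56)) 2 = (i - 1, 51) := by
  have h1 : tg 49 2 = 51 := by decide +kernel
  have h2 : sh 49 2 = -1 := by decide +kernel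
  unfold nb
  simp only [h1, h2]
  push_cast
  rw [sub_eq_add_neg]

theorem nb_51 (i : ZMod k) : nb (i, (51 : Fin 56)) 2 = (i + 1, 49) := by
  have h1 : tg 51 2 = 49 := by decide +kernel
  have h2 : sh 51 2 = 1 := by decide +kernel
  unfold nb
  simp only [h1, h2]
  push_cast
  rfl

theorem okN (X : ZMod k × Fin 56 → Fin 4)
    (hX : ∀ u, ok (X u) (X (nb u 0)) (X (nb u 1)) (X (nb u 2)) = true) (i : ZMod k) (j a b c : Fin 56)
    (h0 : tg j 0 = a) (h1 : tg j 1 = b) (h2 : tg j 2 = c) (h3 : sh j 2 = 0) :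
    ok (X (i, j)) (X (i, a)) (X (i, b)) (X (i, c)) = true := by
  have h := hX (i, j)
  rw [nb_in i j 0 a h0 (by simp [sh]), nb_in i j 1 b h1 (by simp [sh]), nb_in i j 2 c h2 h3] at h
  exact h

/-- the weight of the gadget with root `r` attached to `c` -/
theorem gadget_at (X : ZMod k × Fin 56 → Fin 4)
    (hX : ∀ u, ok (X u) (X (nb u 0)) (X (nb u 1)) (X (nb u 2)) = true) (i : ZMod k)
    (r p0 p1 p2 q0 q1 q2 c : Fin 56)
    (hr0 : tg r 0 = p0) (hr1 : tg r 1 = q0) (hr2 : tg r 2 = c) (hr3 : sh r 2 = 0)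
    (hp0 : tg p0 0 = r) (hp1 : tg p0 1 = q1) (hp2 : tg p0 2 = q2) (hp3 : sh p0 2 = 0)
    (ha0 : tg p1 0 = q0) (ha1 : tg p1 1 = q1) (ha2 : tg p1 2 = q2) (ha3 : sh p1 2 = 0)
    (hb0 : tg p2 0 = q0) (hb1 : tg p2 1 = q1) (hb2 : tg p2 2 = q2) (hb3 : sh p2 2 = 0)
    (hq0 : tg q0 0 = r) (hq1 : tg q0 1 = p1) (hq2 : tg q0 2 = p2) (hq3 : sh q0 2 = 0)
    (hs0 : tg q1 0 = p0) (hs1 : tg q1 1 = p1) (hs2 : tg q1 2 = p2) (hs3 : sh q1 2 = 0)
    (ht0 : tg q2 0 = p0) (ht1 : tg q2 1 = p1) (ht2 : tg q2 2 = p2) (ht3 : sh q2 2 = 0) :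
    s1 (X (i, r)) (X (i, c)) ≤ nv (X (i, r)) + nv (X (i, p0)) + nv (X (i, p1)) + nv (X (i, p2)) +
      nv (X (i, q0)) + nv (X (i, q1)) + nv (X (i, q2)) :=
  gadget _ _ _ _ _ _ _ _ (okN X hX i r p0 q0 c hr0 hr1 hr2 hr3) (okN X hX i p0 r q1 q2 hp0 hp1 hp2 hp3)
    (okN X hX i p1 q0 q1 q2 ha0 ha1 ha2 ha3) (okN X hX i p2 q0 q1 q2 hb0 hb1 hb2 hb3)
    (okN X hX i q0 r p1 p2 hq0 hq1 hq2 hq3) (okN X hX i q1 p0 p1 p2 hs0 hs1 hs2 hs3)
    (okN X hX i q2 p0 p1 p2 ht0 ht1 ht2 ht3)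

end Pool.Agent.MP_eb164e_co
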