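import Pool.Agent.Lib.MP_eb164e_co.Graph

/-!
# The inequality of one period and the total weight
-/

set_option autoImplicit false

noncomputable section

open Classical Finset

namespace Pool.Agent.MP_eb164e_co

set_option linter.unusedSectionVars false

variable {k : ℕ} [NeZero k]

theorem ok_swap : ∀ v a b c : Fin 4, ok v a b c = true → ok v a c b = true := by
  decide +kernel

theorem finRange_eq : List.finRange 56 =
    ([0, 1, 2, 3, 4, 5, 6, 7, 8, 9, 10, 11, 12, 13, 14, 15, 16, 17, 18, 19, 20, 21, 22, 23, 24, 25,
      26, 27, 28, 29, 30, 31, 32, 33, 34, 35, 36, 37, 38, 39, 40, 41, 42, 43, 44, 45, 46, 47, 48, 49,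
      50, 51, 52, 53, 54, 55] : List (Fin 56)) := by
  decide +kernel

/-- the inequality of one period -/
theorem period (X : ZMod k × Fin 56 → Fin 4)
    (hX : ∀ u, ok (X u) (X (nb u 0)) (X (nb u 1)) (X (nb u 2)) = true) (i : ZMod k) :
    94 + h0 (X (i, 51)) (X (i + 1, 49)) ≤ (∑ j : Fin 56, nv (X (i, j))) + h0 (X (i - 1, 51)) (X (i, 49)) := by
  have g0 := gadget_at X hX i 0 1 2 3 4 5 6 49 (by decide +kernel) (by decide +kernel) (by decide +kernel)
    (by decide +kernel) (by decide +kernel) (by decide +kernel) (by decide +kernel) (by decide +kernel)
    (by decide +kernel) (by decide +kernel) (by decide +kernel) (by decide +kernel) (by decide +kernel)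
    (by decide +kernel) (by decide +kernel) (by decide +kernel) (by decide +kernel) (by decide +kernel)
    (by decide +kernel) (by decide +kernel) (by decide +kernel) (by decide +kernel) (by decide +kernel)
    (by decide +kernel) (by decide +kernel) (by decide +kernel) (by decide +kernel) (by decide +kernel)
  have g1 := gadget_at X hX i 7 8 9 10 11 12 13 52 (by decide +kernel) (by decide +kernel) (by decide +kernel)
    (by decide +kernel) (by decide +kernel) (by decide +kernel) (by decide +kernel) (by decide +kernel)
    (by decide +kernel) (by decide +kernel) (by decide +kernel) (by decide +kernel) (by decide +kernel)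
    (by decide +kernel) (by decide +kernel) (by decide +kernel) (by decide +kernel) (by decide +kernel)
    (by decide +kernel) (by decide +kernel) (by decide +kernel) (by decide +kernel) (by decide +kernel)
    (by decide +kernel) (by decide +kernel) (by decide +kernel) (by decide +kernel) (by decide +kernel)
  have g2 := gadget_at X hX i 14 15 16 17 18 19 20 52 (by decide +kernel) (by decide +kernel) (by decide +kernel)
    (by decide +kernel) (by decide +kernel) (by decide +kernel) (by decide +kernel) (by decide +kernel)
    (by decide +kernel) (by decide +kernel) (by decide +kernel) (by decide +kernel) (by decide +kernel)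
    (by decide +kernel) (by decide +kernel) (by decide +kernel) (by decide +kernel) (by decide +kernel)
    (by decide +kernel) (by decide +kernel) (by decide +kernel) (by decide +kernel) (by decide +kernel)
    (by decide +kernel) (by decide +kernel) (by decide +kernel) (by decide +kernel) (by decide +kernel)
  have g3 := gadget_at X hX i 21 22 23 24 25 26 27 54 (by decide +kernel) (by decide +kernel) (by decide +kernel)
    (by decide +kernel) (by decide +kernel) (by decide +kernel) (by decide +kernel) (by decide +kernel)
    (by decide +kernel) (by decide +kernel) (by decide +kernel) (by decide +kernel) (by decide +kernel)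
    (by decide +kernel) (by decide +kernel) (by decide +kernel) (by decide +kernel) (by decide +kernel)
    (by decide +kernel) (by decide +kernel) (by decide +kernel) (by decide +kernel) (by decide +kernel)
    (by decide +kernel) (by decide +kernel) (by decide +kernel) (by decide +kernel) (by decide +kernel)
  have g4 := gadget_at X hX i 28 29 30 31 32 33 34 54 (by decide +kernel) (by decide +kernel) (by decide +kernel)
    (by decide +kernel) (by decide +kernel) (by decide +kernel) (by decide +kernel) (by decide +kernel)
    (by decide +kernel) (by decide +kernel) (by decide +kernel) (by decide +kernel) (by decide +kernel)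
    (by decide +kernel) (by decide +kernel) (by decide +kernel) (by decide +kernel) (by decide +kernel)
    (by decide +kernel) (by decide +kernel) (by decide +kernel) (by decide +kernel) (by decide +kernel)
    (by decide +kernel) (by decide +kernel) (by decide +kernel) (by decide +kernel) (by decide +kernel)
  have g5 := gadget_at X hX i 35 36 37 38 39 40 41 55 (by decide +kernel) (by decide +kernel) (by decide +kernel)
    (by decide +kernel) (by decide +kernel) (by decide +kernel) (by decide +kernel) (by decide +kernel)
    (by decide +kernel) (by decide +kernel) (by decide +kernel) (by decide +kernel) (by decide +kernel)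
    (by decide +kernel) (by decide +kernel) (by decide +kernel) (by decide +kernel) (by decide +kernel)
    (by decide +kernel) (by decide +kernel) (by decide +kernel) (by decide +kernel) (by decide +kernel)
    (by decide +kernel) (by decide +kernel) (by decide +kernel) (by decide +kernel) (by decide +kernel)
  have g6 := gadget_at X hX i 42 43 44 45 46 47 48 55 (by decide +kernel) (by decide +kernel) (by decide +kernel)
    (by decide +kernel) (by decide +kernel) (by decide +kernel) (by decide +kernel) (by decide +kernel)
    (by decide +kernel) (by decide +kernel) (by decide +kernel) (by decide +kernel) (by decide +kernel)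
    (by decide +kernel) (by decide +kernel) (by decide +kernel) (by decide +kernel) (by decide +kernel)
    (by decide +kernel) (by decide +kernel) (by decide +kernel) (by decide +kernel) (by decide +kernel)
    (by decide +kernel) (by decide +kernel) (by decide +kernel) (by decide +kernel) (by decide +kernel)
  have j52 := join_spec join2 _ _ _ _ (okN X hX i 52 7 14 50 (by decide +kernel) (by decide +kernel)
    (by decide +kernel) (by decide +kernel))
  have j54 := join_spec join2 _ _ _ _ (okN X hX i 54 21 28 53 (by decide +kernel) (by decide +kernel)
    (by decide +kernel) (by decide +kernel))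
  have j55 := join_spec join2 _ _ _ _ (okN X hX i 55 35 42 53 (by decide +kernel) (by decide +kernel)
    (by decide +kernel) (by decide +kernel))
  have j53 := join_spec join4 _ _ _ _ (okN X hX i 53 54 55 51 (by decide +kernel) (by decide +kernel)
    (by decide +kernel) (by decide +kernel))
  have e1 : ok (X (i, 49)) (X (i, 0)) (X (i, 50)) (X (i - 1, 51)) = true := by
    have h := hX (i, 49)
    rw [nb_in i 49 0 0 (by decide +kernel) (by simp [sh]), nb_in i 49 1 50 (by decide +kernel) (by simp [sh]),
      nb_49] at h
    exact h
  have e2 := okN X hX i 50 52 49 51 (by decide +kernel) (by decide +kernel) (by decide +kernel)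
    (by decide +kernel)
  have e3 : ok (X (i, 51)) (X (i, 53)) (X (i, 50)) (X (i + 1, 49)) = true := by
    have h := hX (i, 51)
    rw [nb_in i 51 0 53 (by decide +kernel) (by simp [sh]), nb_in i 51 1 50 (by decide +kernel) (by simp [sh]),
      nb_51] at h
    exact h
  have t1 := step_spec step1 _ _ _ _ (ok_swap _ _ _ _ e1)
  have t2 := step_spec step2 _ _ _ _ e2
  have t3 := step_spec step3 _ _ _ _ e3
  have hs : (∑ j : Fin 56, nv (X (i, j))) =
      (nv (X (i, 0)) + nv (X (i, 1)) + nv (X (i, 2)) + nv (X (i, 3)) + nv (X (i, 4)) + nv (X (i, 5)) +
        nv (X (i, 6))) +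
      (nv (X (i, 7)) + nv (X (i, 8)) + nv (X (i, 9)) + nv (X (i, 10)) + nv (X (i, 11)) + nv (X (i, 12)) +
        nv (X (i, 13))) +
      (nv (X (i, 14)) + nv (X (i, 15)) + nv (X (i, 16)) + nv (X (i, 17)) + nv (X (i, 18)) + nv (X (i, 19)) +
        nv (X (i, 20))) +
      (nv (X (i, 21)) + nv (X (i, 22)) + nv (X (i, 23)) + nv (X (i, 24)) + nv (X (i, 25)) + nv (X (i, 26)) +
        nv (X (i, 27))) +
      (nv (X (i, 28)) + nv (X (i, 29)) + nv (X (i, 30)) + nv (X (i, 31)) + nv (X (i, 32)) + nv (X (i, 33)) +
        nv (X (i, 34))) +
      (nv (X (i, 35)) + nv (X (i, 36)) + nv (X (i, 37)) + nv (X (i, 38)) + nv (X (i, 39)) + nv (X (i, 40)) +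
        nv (X (i, 41))) +
      (nv (X (i, 42)) + nv (X (i, 43)) + nv (X (i, 44)) + nv (X (i, 45)) + nv (X (i, 46)) + nv (X (i, 47)) +
        nv (X (i, 48))) +
      (nv (X (i, 49)) + nv (X (i, 50)) + nv (X (i, 51)) + nv (X (i, 52)) + nv (X (i, 53)) + nv (X (i, 54)) +
        nv (X (i, 55))) := by
    rw [Fin.sum_univ_def, finRange_eq]
    simp only [List.map_cons, List.map_nil, List.sum_cons, List.sum_nil]
    ring
  rw [hs]
  omega

end Pool.Agent.MP_eb164e_co
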