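import Pool.Agent.Lib.MP_eb164e_co.Defs

/-!
# Finite checks for the lower bound

The values `-1, 1, 2, 3` are coded by `Fin 4`; `nv` is the value plus one.
-/

set_option autoImplicit false

namespace Pool.Agent.MP_eb164e_co

/-- the value of a code -/
def val : Fin 4 → ℤ
  | 0 => -1
  | 1 => 1
  | 2 => 2
  | 3 => 3

/-- the value of a code plus one -/
def nv : Fin 4 → ℕ
  | 0 => 0
  | 1 => 2
  | 2 => 3
  | 3 => 4

theorem nv_eq (x : Fin 4) : (nv x : ℤ) = val x + 1 := by
  revert x; decide

/-- the local condition at a vertex of code `v` with neighbours of codes `a`, `b`, `c` -/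
def ok (v a b c : Fin 4) : Bool :=
  Nat.ble 5 (nv v + nv a + nv b + nv c) &&
  match v with
  | 0 => (Nat.ble 4 (nv a) || Nat.ble 4 (nv b) || Nat.ble 4 (nv c)) ||
      (Nat.beq (nv a) 3 && Nat.beq (nv b) 3 || Nat.beq (nv a) 3 && Nat.beq (nv c) 3 ||
        Nat.beq (nv b) 3 && Nat.beq (nv c) 3)
  | 1 => Nat.ble 3 (nv a) || Nat.ble 3 (nv b) || Nat.ble 3 (nv c)
  | _ => true

/-- all codes satisfy `p` -/
def all4 (p : Fin 4 → Bool) : Bool := p 0 && p 1 && p 2 && p 3

theorem all4_spec {p : Fin 4 → Bool} (h : all4 p = true) (x : Fin 4) : p x = true := by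
  unfold all4 at h
  simp only [Bool.and_eq_true] at h
  obtain ⟨⟨⟨h0, h1⟩, h2⟩, h3⟩ := h
  fin_cases x
  · exact h0
  · exact h1
  · exact h2
  · exact h3

/-- table of the gadget (plus seven) -/
def s1 (r c : Fin 4) : ℕ := 14757958213217139660 / 16 ^ (4 * r.val + c.val) % 16

/-- table of two gadgets joined by a vertex (plus fifteen) -/
def s2 (r c : Fin 4) : ℕ := 32697341558057344916645058202 / 64 ^ (4 * r.val + c.val) % 64

/-- table of four gadgets (plus thirty one) -/
def s4 (r c : Fin 4) : ℕ := 67909853508696943900107164980 / 64 ^ (4 * r.val + c.val) % 64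

/-- potentials -/
def h0 (r c : Fin 4) : ℕ := 160842841473691 / 8 ^ (4 * r.val + c.val) % 8
/-- potentials -/
def h1 (r c : Fin 4) : ℕ := 120700871526108 / 8 ^ (4 * r.val + c.val) % 8
/-- potentials -/
def h2 (r c : Fin 4) : ℕ := 80411602452480 / 8 ^ (4 * r.val + c.val) % 8

/-- the gadget check -/
def chk1 : Bool := all4 fun c => all4 fun r => all4 fun p0 => all4 fun q0 => !(ok r p0 q0 c) ||
  all4 fun q1 => all4 fun q2 => !(ok p0 r q1 q2) || all4 fun p1 => !(ok p1 q0 q1 q2) ||
    all4 fun p2 => !(ok p2 q0 q1 q2) || !(ok q0 r p1 p2) || !(ok q1 p0 p1 p2) || !(ok q2 p0 p1 p2) ||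
      Nat.ble (s1 r c) (nv r + nv p0 + nv p1 + nv p2 + nv q0 + nv q1 + nv q2)

theorem chk1_true : chk1 = true := by
  decide +kernel

theorem gadget (c r p0 p1 p2 q0 q1 q2 : Fin 4) (h1 : ok r p0 q0 c = true) (h2 : ok p0 r q1 q2 = true)
    (h3 : ok p1 q0 q1 q2 = true) (h4 : ok p2 q0 q1 q2 = true) (h5 : ok q0 r p1 p2 = true)
    (h6 : ok q1 p0 p1 p2 = true) (h7 : ok q2 p0 p1 p2 = true) :
    s1 r c ≤ nv r + nv p0 + nv p1 + nv p2 + nv q0 + nv q1 + nv q2 := by
  have h := chk1_true
  unfold chk1 at h
  have h := all4_spec h c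
  have h := all4_spec h r
  have h := all4_spec h p0
  have h := all4_spec h q0
  simp only [h1, Bool.not_true, Bool.false_or] at h
  have h := all4_spec h q1
  have h := all4_spec h q2
  simp only [h2, Bool.not_true, Bool.false_or] at h
  have h := all4_spec h p1
  simp only [h3, Bool.not_true, Bool.false_or] at h
  have h := all4_spec h p2
  simp only [h4, h5, h6, h7, Bool.not_true, Bool.false_or] at h
  exact Nat.le_of_ble_eq_true h

/-- one step check: table `s`, old potential `h`, new potential `h'`, constant `l` -/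
def chkStep (s h h' : Fin 4 → Fin 4 → ℕ) (l : ℕ) : Bool :=
  all4 fun x => all4 fun v => all4 fun y => all4 fun q => !(ok v q x y) ||
    Nat.ble (l + h' v y) (s q v + nv v + h x v)

theorem step_spec {s h h' : Fin 4 → Fin 4 → ℕ} {l : ℕ} (hc : chkStep s h h' l = true) (x v y q : Fin 4)
    (ho : ok v q x y = true) : l + h' v y ≤ s q v + nv v + h x v := by
  unfold chkStep at hc
  have h := all4_spec hc x
  have h := all4_spec h v
  have h := all4_spec h y
  have h := all4_spec h q
  simp only [ho, Bool.not_true, Bool.false_or] at h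
  exact Nat.le_of_ble_eq_true h

theorem step1 : chkStep s1 h0 h1 13 = true := by decide +kernel
theorem step2 : chkStep s2 h1 h2 30 = true := by decide +kernel
theorem step3 : chkStep s4 h2 h0 51 = true := by decide +kernel

/-- join check: two pieces with table `s` at a vertex give table `s'` -/
def chkJoin (s s' : Fin 4 → Fin 4 → ℕ) : Bool :=
  all4 fun v => all4 fun y => all4 fun a => all4 fun b => !(ok v a b y) ||
    Nat.ble (s' v y) (s a v + s b v + nv v)

theorem join_spec {s s' : Fin 4 → Fin 4 → ℕ} (hc : chkJoin s s' = true) (v y a b : Fin 4)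
    (ho : ok v a b y = true) : s' v y ≤ s a v + s b v + nv v := by
  unfold chkJoin at hc
  have h := all4_spec hc v
  have h := all4_spec h y
  have h := all4_spec h a
  have h := all4_spec h b
  simp only [ho, Bool.not_true, Bool.false_or] at h
  exact Nat.le_of_ble_eq_true h

theorem join2 : chkJoin s1 s2 = true := by decide +kernel
theorem join4 : chkJoin s2 s4 = true := by decide +kernel

theorem ok_of (v a b c : Fin 4) (hs : 1 ≤ val v + val a + val b + val c)
    (hn : val v = -1 → (val a = 3 ∨ val b = 3 ∨ val c = 3) ∨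
      (val a = 2 ∧ val b = 2 ∨ val a = 2 ∧ val c = 2 ∨ val b = 2 ∧ val c = 2))
    (ho : val v = 1 → (val a = 2 ∨ val a = 3) ∨ (val b = 2 ∨ val b = 3) ∨ (val c = 2 ∨ val c = 3)) :
    ok v a b c = true := by
  revert v a b c
  decide +kernel

/-- the neighbour table of one period -/
def tgN (n : ℕ) : ℕ :=
  2300100324328143094791662192238317691044071950962861075337549835181832283832559132244959903417232610136993308148509260090467474976132014140206698659165303855085894320002148613716908560263677968230287630278115429915305840909211269400520983900113380965399330316685564049335807036760594075015260004096872705 / 64 ^ n % 64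

/-- the position of the `t`-th neighbour -/
def tg (j : Fin 56) (t : Fin 3) : Fin 56 := Fin.ofNat 56 (tgN (3 * j.val + t.val))

/-- the shift of the period for the `t`-th neighbour -/
def sh (j : Fin 56) (t : Fin 3) : ℤ :=
  if t = 2 then (if j = 49 then -1 else if j = 51 then 1 else 0) else 0

theorem tg_symm : ∀ (j : Fin 56) (t : Fin 3), ∃ s : Fin 3, tg (tg j t) s = j ∧ sh (tg j t) s = - sh j t := by
  decide +kernel

theorem tg_ne : ∀ (j : Fin 56) (t : Fin 3), tg j t ≠ j := by
  decide +kernel

theorem tg_inj : ∀ (j : Fin 56) (s t : Fin 3), tg j s = tg j t → s = t := by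
  decide +kernel

/-- the direction towards the vertex `49` -/
def dr (j : Fin 56) : Fin 3 :=
  if j.val < 49 then (if j.val % 7 = 0 then 2 else 0)
  else if j.val = 50 then 1 else if j.val = 51 then 1 else 2

/-- one step towards `49` -/
def nxt (j : Fin 56) : Fin 56 := if j = 49 then 49 else tg j (dr j)

theorem nxt_sh : ∀ j : Fin 56, j ≠ 49 → sh j (dr j) = 0 := by
  decide +kernel

theorem nxt_iter : ∀ j : Fin 56, nxt^[10] j = 49 := by
  decide +kernel

end Pool.Agent.MP_eb164e_co
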