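import Pool.Agent.Lib.MP_eb164e_co.Period

/-!
# The total weight and the connectivity of the graphs
-/

set_option autoImplicit false

noncomputable section

open Classical Finset

namespace Pool.Agent.MP_eb164e_co

set_option linter.unusedSectionVars false

variable {k : ℕ} [NeZero k]

theorem total_nv (X : ZMod k × Fin 56 → Fin 4)
    (hX : ∀ u, ok (X u) (X (nb u 0)) (X (nb u 1)) (X (nb u 2)) = true) :
    94 * k ≤ ∑ u, nv (X u) := by
  have h := Finset.sum_le_sum fun (i : ZMod k) (_ : i ∈ univ) => period X hX i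
  rw [sum_add_distrib, sum_add_distrib, sum_const, card_univ, ZMod.card, smul_eq_mul] at h
  have e : (∑ i : ZMod k, h0 (X (i, 51)) (X (i + 1, 49))) = ∑ i : ZMod k, h0 (X (i - 1, 51)) (X (i, 49)) := by
    rw [← Equiv.sum_comp (Equiv.addRight (1 : ZMod k)) fun i => h0 (X (i - 1, 51)) (X (i, 49))]
    refine sum_congr rfl fun i _ => ?_
    simp
  rw [e] at h
  rw [Fintype.sum_prod_type]
  omega

/-- every signed double Roman dominating function of the graph has weight at least `38 k` -/
theorem weight_ge {f : ZMod k × Fin 56 → ℤ} (hf : IsSDRDF (gr k) f) : (38 * k : ℤ) ≤ ∑ u, f u := by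
  have h := total_nv (fun u => code (f u)) (ok_vertex hf)
  have e : (∑ u, f u) = ((∑ u : ZMod k × Fin 56, nv (code (f u)) : ℕ) : ℤ) - 56 * k := by
    push_cast
    rw [eq_sub_iff_add_eq]
    have e2 : (56 * k : ℤ) = ∑ _u : ZMod k × Fin 56, (1 : ℤ) := by
      rw [sum_const, card_univ, Fintype.card_prod, ZMod.card, Fintype.card_fin]
      simp [mul_comm]
    rw [e2, ← sum_add_distrib]
    refine sum_congr rfl fun u _ => ?_
    rw [nv_eq, val_code (hf.range u)]
  rw [e]
  have h2 : ((94 * k : ℕ) : ℤ) ≤ ((∑ u : ZMod k × Fin 56, nv (code (f u)) : ℕ) : ℤ) := by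
    exact_mod_cast h
  push_cast at h2 ⊢
  linarith

theorem reach_nxt (i : ZMod k) (j : Fin 56) : (gr k).Reachable (i, j) (i, nxt j) := by
  unfold nxt
  split_ifs with h
  · subst h
    exact SimpleGraph.Reachable.refl _
  · apply SimpleGraph.Adj.reachable
    exact ⟨dr j, nb_in i j (dr j) _ rfl (nxt_sh j h)⟩

theorem reach_iter (i : ZMod k) (n : ℕ) : ∀ j : Fin 56, (gr k).Reachable (i, j) (i, nxt^[n] j) := by
  induction n with
  | zero => exact fun j => SimpleGraph.Reachable.refl _
  | succ n ih =>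
    intro j
    rw [Function.iterate_succ_apply]
    exact (reach_nxt i j).trans (ih (nxt j))

theorem reach_49 (i : ZMod k) (j : Fin 56) : (gr k).Reachable (i, j) (i, 49) := by
  have h := reach_iter i 10 j
  rwa [nxt_iter] at h

theorem reach_prev (i : ZMod k) : (gr k).Reachable (i, (49 : Fin 56)) (i - 1, 49) := by
  have h : (gr k).Adj (i, (49 : Fin 56)) (i - 1, 51) := ⟨2, nb_49 i⟩
  exact h.reachable.trans (reach_49 (i - 1) 51)

theorem reach_zero (n : ℕ) : (gr k).Reachable ((n : ZMod k), (49 : Fin 56)) (0, 49) := by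
  induction n with
  | zero =>
    rw [Nat.cast_zero]
  | succ n ih =>
    have h := reach_prev ((n + 1 : ℕ) : ZMod k)
    have e : ((n + 1 : ℕ) : ZMod k) - 1 = n := by
      push_cast
      ring
    rw [e] at h
    exact h.trans ih

theorem gr_connected : (gr k).Connected := by
  have h : ∀ u : ZMod k × Fin 56, (gr k).Reachable u (0, 49) := by
    rintro ⟨i, j⟩
    refine (reach_49 i j).trans ?_
    obtain ⟨n, rfl⟩ := ZMod.natCast_zmod_surjective i
    exact reach_zero n
  have : Nonempty (ZMod k × Fin 56) := ⟨(0, 49)⟩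
  exact ⟨fun u v => (h u).trans (h v).symm⟩

end Pool.Agent.MP_eb164e_co
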